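import Pool.Agent.LSG.StmtsA

/-!
# Row CO2 of squad LSG: the group meets every uncountable measurable set
(the construction of Helper41_LSG/Grp, row CON)
-/

set_option autoImplicit false

open MeasureTheory Set Topology

namespace Pool.Agent.LSG.H19

open Pool.Agent.LSG

theorem meas_psi {φ : K → K} (hφ : Measurable φ) : Measurable fun x => φ x - x := by
  refine measurable_pi_iff.mpr fun n => ?_
  have h1 : Measurable fun x : K => φ x n := (measurable_pi_apply n).comp hφ
  have h2 : Measurable fun x : K => x n := measurable_pi_apply n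
  exact (measurable_from_prod_countable_right (f := fun p : ZMod 2 × ZMod 2 => p.1 - p.2)
    (fun _ => measurable_of_countable _)).comp (h1.prodMk h2)

/-- the shift -/
def shf (x : K) : K := fun n => x (n + 1)

theorem shf_meas : Measurable shf := measurable_pi_iff.mpr fun n => measurable_pi_apply (n + 1)

theorem shf_inj {x y : K} (h0 : x 0 = y 0) (h : shf x = shf y) : x = y := by
  funext n
  cases n with
  | zero => exact h0
  | succ n => exact congrFun h n

theorem shf_inj2 {x y : K} (h0 : x 0 = y 0) (h : shf x - x = shf y - y) : x = y := by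
  funext n
  induction n with
  | zero => exact h0
  | succ n ih =>
    have h1 : x (n + 1) - x n = y (n + 1) - y n := congrFun h n
    rw [ih] at h1
    exact sub_left_injective h1

theorem polishK : PolishSpace K := by
  have h0 : TopologicalSpace.MetrizableSpace K := by
    exact TopologicalSpace.metrizableSpace_of_t3_secondCountable K
  let hm : MetricSpace K := TopologicalSpace.metrizableSpaceMetric K
  have hc : CompleteSpace K := complete_of_compact
  exact inferInstance

/-- an uncountable measurable set contains a Cantor set on which the shift and the shift minus the identity are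
injective -/
theorem cantor {C : Set K} (hC : MeasurableSet C) (hu : ¬ C.Countable) :
    ∃ P : (ℕ → Bool) → K, (∀ σ, P σ ∈ C) ∧ Function.Injective (fun σ => shf (P σ)) ∧
      Function.Injective (fun σ => shf (P σ) - P σ) := by
  obtain ⟨z, hz⟩ : ∃ z : ZMod 2, ¬ (C ∩ {x : K | x 0 = z}).Countable := by
    by_contra hn
    push Not at hn
    apply hu
    have h1 : C ⊆ ⋃ z : ZMod 2, C ∩ {x : K | x 0 = z} := by
      intro x hx
      exact Set.mem_iUnion.2 ⟨x 0, hx, rfl⟩
    exact (Set.countable_iUnion hn).mono h1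
  have hz' : MeasurableSet {x : K | x 0 = z} :=
    (isOpen_discrete {z}).measurableSet.preimage (continuous_apply (0 : ℕ)).measurable
  have hm : MeasurableSet (C ∩ {x : K | x 0 = z}) := hC.inter hz'
  have hK := polishK
  obtain ⟨t, -, hpol, hcl, -⟩ := hm.isClopenable
  obtain ⟨f, hf1, -, hf3⟩ := @IsClosed.exists_nat_bool_injection_of_not_countable K t hpol _ hcl hz
  have hf : ∀ σ, f σ ∈ C ∩ {x : K | x 0 = z} := fun σ => hf1 ⟨σ, rfl⟩
  refine ⟨f, fun σ => (hf σ).1, ?_, ?_⟩
  · intro σ τ h
    exact hf3 (shf_inj ((hf σ).2.trans (hf τ).2.symm) h)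
  · intro σ τ h
    exact hf3 (shf_inj2 ((hf σ).2.trans (hf τ).2.symm) h)

theorem co2 (hM : MukStmt) (hY : MycStmt) (hT : TraStmt) (hC : CrdStmt) : Co2Stmt := by
  classical
  obtain ⟨hprob, -, hpt, -⟩ := hM
  have : IsProbabilityMeasure mu := hprob
  have hna : NullSingletonClass mu := ⟨hpt⟩
  let J : Type := {p : Set K × (K → K) // MeasurableSet p.1 ∧ Measurable p.2}
  let I : Type := {p : J // ∃ P : (ℕ → Bool) → K, (∀ σ, P σ ∈ p.1.1) ∧
    Function.Injective (fun σ => p.1.2 (P σ)) ∧ Function.Injective (fun σ => p.1.2 (P σ) - P σ)}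
  have hI : Cardinal.mk I ≤ Cardinal.continuum := (Cardinal.mk_subtype_le _).trans hC
  obtain ⟨G, hG⟩ := hT I (fun i => i.2.choose) (fun i => i.1.1.2) hI
    (fun i => i.2.choose_spec.2.1) (fun i => i.2.choose_spec.2.2)
  -- the group meets every good pair
  have key : ∀ (E : Set K) (φ : K → K), MeasurableSet E → Measurable φ → 0 < mu E →
      (∀ y, mu (E ∩ φ ⁻¹' {y}) = 0) → (∀ y, mu (E ∩ (fun x => φ x - x) ⁻¹' {y}) = 0) →
      ∃ x ∈ G, x ∈ E ∧ φ x ∉ G := by
    intro E φ hE hφ hpos h1 h2
    obtain ⟨P, hP⟩ := hY E φ (fun x => φ x - x) hE hφ (meas_psi hφ) hpos h1 h2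
    let i : I := ⟨⟨(E, φ), hE, hφ⟩, P, hP⟩
    obtain ⟨σ, hσ1, hσ2⟩ := hG i
    exact ⟨_, hσ1, i.2.choose_spec.1 σ, hσ2⟩
  have full : ∀ E : Set K, MeasurableSet E → 0 < mu E → ∃ x ∈ G, x ∈ E := by
    intro E hE hpos
    let φ : K → K := fun x n => x (n + 1)
    have hφ : Measurable φ := measurable_pi_iff.mpr fun n => measurable_pi_apply (n + 1)
    have h1 : ∀ y, mu (E ∩ φ ⁻¹' {y}) = 0 := by
      intro y
      let g : ZMod 2 → K := fun z n => Nat.casesOn n z y
      have hsub : E ∩ φ ⁻¹' {y} ⊆ Set.range g := by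
        rintro x ⟨-, hx⟩
        refine ⟨x 0, ?_⟩
        funext n
        cases n with
        | zero => rfl
        | succ n =>
          have := congrFun (show φ x = y from hx) n
          exact this.symm
      exact ((Set.finite_range g).subset hsub).measure_zero mu
    have h2 : ∀ y, mu (E ∩ (fun x => φ x - x) ⁻¹' {y}) = 0 := by
      intro y
      let g : ZMod 2 → K := fun z n => Nat.rec z (fun n t => y n + t) n
      have hsub : E ∩ (fun x => φ x - x) ⁻¹' {y} ⊆ Set.range g := by
        rintro x ⟨-, hx⟩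
        refine ⟨x 0, ?_⟩
        funext n
        induction n with
        | zero => rfl
        | succ n ih =>
          have h3 : x (n + 1) - x n = y n := congrFun (show φ x - x = y from hx) n
          show y n + g (x 0) n = x (n + 1)
          rw [ih, ← h3]
          ring
      exact ((Set.finite_range g).subset hsub).measure_zero mu
    obtain ⟨x, hx, hxE, -⟩ := key E φ hE hφ hpos h1 h2
    exact ⟨x, hx, hxE⟩
  have unc : Unc G := by
    intro C hC hu
    let i : I := ⟨⟨(C, shf), hC, shf_meas⟩, cantor hC hu⟩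
    obtain ⟨σ, hσ1, -⟩ := hG i
    exact ⟨_, hσ1, i.2.choose_spec.1 σ⟩
  refine ⟨G, ⟨full, ?_⟩, unc⟩
  intro E φ hE hφ hEG
  have hψ := meas_psi hφ
  have hcount : ∀ f : K → K, Measurable f → {s : K | 0 < mu (E ∩ f ⁻¹' {s})}.Countable := by
    intro f hf
    refine Measure.countable_meas_pos_of_disjoint_iUnion (μ := mu) (As := fun s => E ∩ f ⁻¹' {s})
      (fun s => hE.inter (hf (measurableSet_singleton s))) ?_
    intro s t hst
    refine Set.disjoint_left.mpr ?_
    rintro x ⟨-, hx⟩ ⟨-, hx'⟩
    exact hst ((show f x = s from hx).symm.trans hx')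
  have hS1 := hcount φ hφ
  have hS2 := hcount _ hψ
  set S1 : Set K := {s : K | 0 < mu (E ∩ φ ⁻¹' {s})} with hS1d
  set S2 : Set K := {s : K | 0 < mu (E ∩ (fun x => φ x - x) ⁻¹' {s})} with hS2d
  have hS : (S1 ∪ S2).Countable := hS1.union hS2
  have hSG : S1 ∪ S2 ⊆ G := by
    rintro s (hs | hs)
    · obtain ⟨x, hx, hxE, hxs⟩ := full _ (hE.inter (hφ (measurableSet_singleton s))) hs
      have := hEG x hx hxE
      rw [show φ x = s from hxs] at this
      exact this
    · obtain ⟨x, hx, hxE, hxs⟩ := full _ (hE.inter (hψ (measurableSet_singleton s))) hs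
      have := G.sub_mem (hEG x hx hxE) hx
      rw [show φ x - x = s from hxs] at this
      exact this
  refine ⟨S1 ∪ S2, hS, hSG, ?_⟩
  by_contra hne
  have hpos : 0 < mu {x | x ∈ E ∧ φ x ∉ S1 ∪ S2 ∧ φ x - x ∉ S1 ∪ S2} := pos_iff_ne_zero.mpr hne
  have hE' : MeasurableSet {x | x ∈ E ∧ φ x ∉ S1 ∪ S2 ∧ φ x - x ∉ S1 ∪ S2} :=
    hE.inter ((hφ hS.measurableSet.compl).inter (hψ hS.measurableSet.compl))
  obtain ⟨x, hx, hxE, hxn⟩ := key _ φ hE' hφ hpos (by
      intro y
      by_cases hy : y ∈ S1 ∪ S2
      · refine measure_mono_null ?_ (measure_empty (μ := mu))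
        rintro x ⟨⟨-, h1, -⟩, h2⟩
        exact h1 ((show φ x = y from h2) ▸ hy)
      · have h0 : mu (E ∩ φ ⁻¹' {y}) = 0 := by
          by_contra h
          exact hy (Or.inl (pos_iff_ne_zero.mpr h))
        refine measure_mono_null ?_ h0
        rintro x ⟨⟨h1, -, -⟩, h2⟩
        exact ⟨h1, h2⟩) (by
      intro y
      by_cases hy : y ∈ S1 ∪ S2
      · refine measure_mono_null ?_ (measure_empty (μ := mu))
        rintro x ⟨⟨-, -, h1⟩, h2⟩
        exact h1 ((show φ x - x = y from h2) ▸ hy)
      · have h0 : mu (E ∩ (fun x => φ x - x) ⁻¹' {y}) = 0 := by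
          by_contra h
          exact hy (Or.inr (pos_iff_ne_zero.mpr h))
        refine measure_mono_null ?_ h0
        rintro x ⟨⟨h1, -, -⟩, h2⟩
        exact ⟨h1, h2⟩)
  exact hxn (hEG x hx hxE.1)

end Pool.Agent.LSG.H19
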