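import Pool.Agent.LSG.Stmts

/-!
# Squad LSG, row CTL: cosets with more points of `B` than of `A`
-/

set_option autoImplicit false

open MeasureTheory Set Topology

namespace Pool.Agent.LSG.H19

open Pool.Agent.LSG

/-- the number of the `h` with `x + h ∈ D` -/
noncomputable def gg (F : Finset K) (D : Set K) (x : K) : ENNReal :=
  ∑ h ∈ F, ((fun y : K => h + y) ⁻¹' D).indicator (fun _ => (1 : ENNReal)) x

theorem tr_meas (h : K) : Measurable (fun y : K => h + y) :=
  (continuous_const.add continuous_id).measurable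

theorem gg_meas (F : Finset K) {D : Set K} (hD : MeasurableSet D) : Measurable (gg F D) := by
  unfold gg
  refine Finset.measurable_sum _ fun h _ => ?_
  exact measurable_const.indicator (tr_meas h hD)

theorem gg_int (h1 : MukStmt) (F : Finset K) {D : Set K} (hD : MeasurableSet D) :
    ∫⁻ x, gg F D x ∂mu = F.card * mu D := by
  unfold gg
  rw [lintegral_finsetSum _ (fun h _ => measurable_const.indicator (tr_meas h hD))]
  have h2 : ∀ h ∈ F, ∫⁻ x, ((fun y : K => h + y) ⁻¹' D).indicator (fun _ => (1 : ENNReal)) x ∂mu =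
      mu D := by
    intro h _
    rw [lintegral_indicator_const (tr_meas h hD), one_mul]
    exact h1.2.1 h D
  rw [Finset.sum_congr rfl h2, Finset.sum_const, nsmul_eq_mul]

theorem gg_card {H : AddSubgroup K} (hH : (H : Set K).Finite) (D : Set K) (x : K) :
    gg hH.toFinset D x = (Set.ncard {h : K | h ∈ H ∧ x + h ∈ D} : ENNReal) := by
  classical
  have h1 : {h : K | h ∈ H ∧ x + h ∈ D} = (hH.toFinset.filter (fun h => x + h ∈ D) : Finset K) := by
    ext h
    simp
  rw [h1, Set.ncard_coe_finset, Finset.card_filter]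
  unfold gg
  push_cast
  refine Finset.sum_congr rfl fun h _ => ?_
  by_cases hx : x + h ∈ D
  · rw [if_pos hx, Set.indicator_of_mem]
    show h + x ∈ D
    rwa [add_comm]
  · rw [if_neg hx, Set.indicator_of_notMem]
    show ¬ (h + x ∈ D)
    rwa [add_comm]

theorem ctl (h1 : MukStmt) : CtlStmt := by
  classical
  intro G hG H hH hHG k A B hA hB hlt
  have hprob := h1.1
  have hsing : NullSingletonClass mu := ⟨h1.2.2.1⟩
  set F : Finset K := hH.toFinset with hF
  set Z : Set K := {x | ∑ i, gg F (A i) x < ∑ i, gg F (B i) x} with hZ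
  have mA : Measurable (fun x => ∑ i, gg F (A i) x) :=
    Finset.measurable_sum _ fun i _ => gg_meas F (hA i)
  have mB : Measurable (fun x => ∑ i, gg F (B i) x) :=
    Finset.measurable_sum _ fun i _ => gg_meas F (hB i)
  have hZm : MeasurableSet Z := measurableSet_lt mA mB
  have iA : ∫⁻ x, ∑ i, gg F (A i) x ∂mu = F.card * ∑ i, mu (A i) := by
    rw [lintegral_finsetSum _ (fun i _ => gg_meas F (hA i)), Finset.mul_sum]
    exact Finset.sum_congr rfl fun i _ => gg_int h1 F (hA i)
  have iB : ∫⁻ x, ∑ i, gg F (B i) x ∂mu = F.card * ∑ i, mu (B i) := by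
    rw [lintegral_finsetSum _ (fun i _ => gg_meas F (hB i)), Finset.mul_sum]
    exact Finset.sum_congr rfl fun i _ => gg_int h1 F (hB i)
  have hF0 : (F.card : ENNReal) ≠ 0 := by
    have : 0 ∈ F := by
      rw [hF, Set.Finite.mem_toFinset]
      exact H.zero_mem
    have h2 : F.card ≠ 0 := Finset.card_ne_zero_of_mem this
    exact_mod_cast h2
  have hZ0 : 0 < mu Z := by
    rw [pos_iff_ne_zero]
    intro h0
    have hae : ∀ᵐ x ∂mu, ∑ i, gg F (B i) x ≤ ∑ i, gg F (A i) x := by
      rw [ae_iff]
      have : {x | ¬ ∑ i, gg F (B i) x ≤ ∑ i, gg F (A i) x} = Z := by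
        ext x
        simp [hZ]
      rw [this]
      exact h0
    have h3 := lintegral_mono_ae hae
    rw [iA, iB] at h3
    have h4 : (F.card : ENNReal) * ∑ i, mu (A i) < F.card * ∑ i, mu (B i) :=
      (ENNReal.mul_lt_mul_iff_right hF0 (ENNReal.natCast_ne_top _)).2 hlt
    exact absurd h3 (not_le.2 h4)
  have hZc : ∀ x ∈ Z, ∑ i, Set.ncard {h : K | h ∈ H ∧ x + h ∈ A i}
      < ∑ i, Set.ncard {h : K | h ∈ H ∧ x + h ∈ B i} := by
    intro x hx
    have h5 : ∑ i, gg F (A i) x < ∑ i, gg F (B i) x := hx
    simp only [hF, gg_card hH] at h5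
    exact_mod_cast h5
  intro M
  induction M with
  | zero => exact ⟨∅, by simp, rfl, by simp, by simp⟩
  | succ M ih =>
    obtain ⟨X, hX1, hX2, hX3, hX4⟩ := ih
    set Y : Set K := ⋃ x ∈ X, (fun h => x + h) '' (H : Set K) with hY
    have hYf : Y.Finite := X.finite_toSet.biUnion fun x _ => hH.image _
    have hY0 : mu Y = 0 := hYf.measure_zero mu
    have hpos : 0 < mu (Z \ Y) := by
      rw [measure_sdiff_null hY0]
      exact hZ0
    obtain ⟨z, hzG, hzZ⟩ := hG.full (Z \ Y) (hZm.diff hYf.measurableSet) hpos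
    have hzX : ∀ x ∈ X, z - x ∉ H := by
      intro x hx hm
      apply hzZ.2
      rw [hY]
      simp only [Set.mem_iUnion]
      exact ⟨x, hx, z - x, hm, add_sub_cancel x z⟩
    have hzn : z ∉ X := by
      intro hz
      have := hzX z hz
      rw [sub_self] at this
      exact this H.zero_mem
    refine ⟨insert z X, ?_, ?_, ?_, ?_⟩
    · intro x hx
      rcases Finset.mem_insert.1 hx with rfl | hx
      · exact hzG
      · exact hX1 x hx
    · rw [Finset.card_insert_of_notMem hzn, hX2]
    · intro x hx y hy hxy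
      rcases Finset.mem_insert.1 hx with hx' | hx'
      · rcases Finset.mem_insert.1 hy with hy' | hy'
        · rw [hx', hy']
        · exact absurd (hx' ▸ hxy) (hzX y hy')
      · rcases Finset.mem_insert.1 hy with hy' | hy'
        · exfalso
          apply hzX x hx'
          have h6 := H.neg_mem hxy
          rwa [neg_sub, hy'] at h6
        · exact hX3 x hx' y hy' hxy
    · intro x hx
      rcases Finset.mem_insert.1 hx with rfl | hx
      · exact hZc _ hzZ.1
      · exact hX4 x hx

end Pool.Agent.LSG.H19
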